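import Pool.Agent.H62.CYC.DefsP
import Pool.Graph.R_seed8.W707.TV.Path

/-! # Project CYC2 (helper62), module PPATH: deformation of the contour (helper11) -/

set_option autoImplicit false

namespace Pool.Agent.H11.CYC

open Finset Filter
open Pool.Agent.H62.CYC
open Pool.Agent.W709.VC (rect path Lf ell)
open Pool.Agent.W707.TV (Rh RH)
open scoped Real Topology

lemma Rh_pos (M : ℕ) : 0 < Rh M := by
  unfold Rh
  positivity

lemma sin_ne_im {M : ℕ} {ψ : ℂ} (h : ψ.im ≠ 0) : Complex.sin (Rh M * ψ) ≠ 0 := by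
  intro h0
  rw [Complex.sin_eq_zero_iff] at h0
  obtain ⟨n, hn⟩ := h0
  have h1 := congrArg Complex.im hn
  rw [Complex.im_ofReal_mul] at h1
  simp at h1
  rcases h1 with h1 | h1
  · exact (Rh_pos M).ne' h1
  · exact h h1

lemma sin_vert {M : ℕ} {ψ : ℂ} (h : ψ.re = π ∨ ψ.re = -π) : Complex.sin (Rh M * ψ) ≠ 0 := by
  intro h0
  rw [Complex.sin_eq_zero_iff] at h0
  obtain ⟨n, hn⟩ := h0
  have h1 := congrArg Complex.re hn
  rw [Complex.re_ofReal_mul] at h1
  have h2 : ((n : ℂ) * π).re = n * π := by simp
  rw [h2] at h1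
  have hp := Real.pi_pos.ne'
  unfold Rh at h1
  rcases h with h | h
  · rw [h] at h1
    have h3 := mul_right_cancel₀ hp h1
    have h4 : ((2 * M + 1 : ℤ) : ℝ) = ((2 * n : ℤ) : ℝ) := by push_cast; linarith
    have h5 : (2 * M + 1 : ℤ) = 2 * n := by exact_mod_cast h4
    omega
  · rw [h] at h1
    have h3 : -((M : ℝ) + 1 / 2) = n := by
      apply mul_right_cancel₀ hp
      linarith
    have h4 : ((-(2 * M + 1) : ℤ) : ℝ) = ((2 * n : ℤ) : ℝ) := by push_cast; linarith
    have h5 : (-(2 * M + 1) : ℤ) = 2 * n := by exact_mod_cast h4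
    omega

lemma HT_diffAt (p M k : ℕ) {ψ : ℂ} (h : Complex.sin (Rh M * ψ) ≠ 0) :
    DifferentiableAt ℂ (HT p M k) ψ := by
  unfold HT
  apply DifferentiableAt.div
  · unfold RH
    fun_prop
  · fun_prop
  · exact h

lemma HT_neg (p M k : ℕ) (ψ : ℂ) : HT p M k (-ψ) = -HT p M k ψ := by
  have h1 : RH M k (-ψ + π) = RH M k (ψ + π) := by
    unfold RH
    rw [Complex.cos_add_pi, Complex.cos_add_pi, Complex.cos_neg]
  have h2 : Complex.cos ((-ψ + π) / 2) = -Complex.cos ((ψ + π) / 2) := by
    rw [show (-ψ + π) / 2 = -(ψ / 2) + π / 2 by ring, show (ψ + π) / 2 = ψ / 2 + π / 2 by ring,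
      Complex.cos_add_pi_div_two, Complex.cos_add_pi_div_two, Complex.sin_neg]
  have h3 : Complex.sin (-ψ / 2) = -Complex.sin (ψ / 2) := by
    rw [neg_div, Complex.sin_neg]
  have h4 : Complex.sin (Rh M * -ψ) = -Complex.sin (Rh M * ψ) := by
    rw [mul_neg, Complex.sin_neg]
  unfold HT
  rw [h1, h2, h3, h4, neg_sq, div_neg]
  congr 2
  ring

theorem ppath : S_PPATH := by
  intro p M d h η b hh hη hb
  have hcr : Continuous fun y : ℝ => HT p M d (π + y * Complex.I) := by
    rw [continuous_iff_continuousAt]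
    intro y
    have := (HT_diffAt p M d (sin_vert (M := M) (ψ := π + y * Complex.I) (Or.inl (by simp)))).continuousAt
    exact ContinuousAt.comp (f := fun y : ℝ => (π + y * Complex.I : ℂ)) this (by fun_prop)
  rw [Pool.Agent.W634.VC.rect_eq (HT p M d) (HT_neg p M d) h hcr]
  have hline : Continuous fun x : ℝ => HT p M d (x + h * Complex.I) := by
    rw [continuous_iff_continuousAt]
    intro x
    have := (HT_diffAt p M d (sin_ne_im (M := M) (ψ := x + h * Complex.I)
      (by simp [hh.ne']))).continuousAt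
    exact ContinuousAt.comp (f := fun x : ℝ => (x + h * Complex.I : ℂ)) this (by fun_prop)
  have hsplit : (∫ x in (-π)..π, HT p M d (x + h * Complex.I)) =
      (∫ x in (-π)..(-b), HT p M d (x + h * Complex.I)) +
        ∫ x in (-b)..π, HT p M d (x + h * Complex.I) :=
    (intervalIntegral.integral_add_adjacent_intervals (hline.intervalIntegrable _ _)
      (hline.intervalIntegrable _ _)).symm
  have hcauchy := Complex.integral_boundary_rect_eq_zero_of_differentiableOn
    (HT p M d) (-b + h * Complex.I) (π + η * Complex.I) (by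
      intro z hz
      apply DifferentiableAt.differentiableWithinAt
      apply HT_diffAt
      apply sin_ne_im
      have hz2 := hz.2
      simp only [Complex.add_im, Complex.neg_im, Complex.ofReal_im, Complex.mul_im,
        Complex.ofReal_re, Complex.I_im, Complex.I_re, Set.mem_preimage] at hz2
      have : z.im ∈ Set.uIcc h η := by simpa using hz2
      rw [Set.uIcc_of_le hη] at this
      have := this.1
      linarith)
  simp only [Complex.add_re, Complex.neg_re, Complex.ofReal_re, Complex.mul_re, Complex.I_re,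
    Complex.ofReal_im, Complex.I_im, Complex.add_im, Complex.neg_im, Complex.mul_im, mul_zero,
    mul_one, zero_mul, sub_zero, add_zero, zero_add, neg_zero, sub_self, smul_eq_mul,
    Complex.ofReal_neg] at hcauchy
  have hsplit2 : (∫ y in (0:ℝ)..η, HT p M d (π + y * Complex.I)) =
      (∫ y in (0:ℝ)..h, HT p M d (π + y * Complex.I)) +
        ∫ y in h..η, HT p M d (π + y * Complex.I) :=
    (intervalIntegral.integral_add_adjacent_intervals (hcr.intervalIntegrable _ _)
      (hcr.intervalIntegrable _ _)).symm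
  unfold Pool.Agent.W709.VC.path
  rw [hsplit, hsplit2]
  linear_combination (-2) * hcauchy

end Pool.Agent.H11.CYC
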