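import Pool.Agent.H11.CYC.PPath
import Pool.Graph.R_seed8.W707.TV.Pt
import Pool.Graph.R_seed8.W688.TV.Rs
import Pool.Graph.R_seed8.W973.VcVc
import Pool.Graph.R_seed8.W305.VC.Pot
import Pool.Graph.R_seed8.W709.VC.Pt

/-! # Project CYC2 (helper62), module PPBF: the size of the integrand off the real axis (helper11) -/

set_option autoImplicit false

namespace Pool.Agent.H11.CYC

open Finset Filter
open Pool.Agent.H62.CYC
open Pool.Agent.W709.VC (rect path Lf ell)
open Pool.Agent.W707.TV (Rh RH)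
open Pool.Agent.W719.BX (hp Crit2)
open scoped Real Topology

lemma Lf_add_two_pi {η : ℝ} (hη : 0 < η) (x : ℝ) : Lf η (x + 2 * π) = Lf η x + 2 * π * η := by
  have hper : Function.Periodic (ell η) (2 * π) := fun τ => by
    unfold ell
    rw [Real.cos_add_two_pi]
  have h1 := Pool.Agent.W305.VC.Lf_sub hη x (x + 2 * π)
  have h2 := hper.intervalIntegral_add_eq x (-π)
  have h3 := Pool.Agent.W305.VC.Lf_sub hη (-π) π
  rw [show -π + 2 * π = π by ring] at h2
  have h4 := Pool.Agent.W973.VcVc.Lf_odd η π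
  have h5 := Pool.Agent.W973.VcVc.Lf_pi hη
  rw [h4, h5] at h3
  linarith

lemma norm_expoP (p M : ℕ) (b η : ℝ) :
    ‖Complex.exp (Complex.I * p * Rh M * (-b + η * Complex.I) ^ 2 / (8 * π))‖ =
      Real.exp (p * Rh M * b * η / (4 * π)) := by
  rw [Complex.norm_exp]
  congr 1
  have hpi : (π : ℝ) ≠ 0 := Real.pi_ne_zero
  have h1 : Complex.I * p * Rh M * (-b + η * Complex.I) ^ 2 / (8 * π) =
      ((p * Rh M * b * η / (4 * π) : ℝ) : ℂ) +
        ((p * Rh M * (b ^ 2 - η ^ 2) / (8 * π) : ℝ) : ℂ) * Complex.I := by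
    have hpc : (π : ℂ) ≠ 0 := by exact_mod_cast hpi
    have hI : Complex.I ^ 2 = -1 := Complex.I_sq
    have hI3 : Complex.I ^ 3 = -Complex.I := by rw [pow_succ, hI]; ring
    push_cast
    field_simp
    ring_nf
    rw [hI3, hI]
    ring
  rw [h1, Complex.add_re, Complex.re_ofReal_mul, Complex.I_re, Complex.ofReal_re]
  ring

lemma norm_sinP (M : ℕ) (b η : ℝ) (hη : 0 < η) :
    Real.exp (Rh M * η) * (1 - Real.exp (-(2 * Rh M * η))) ≤
      ‖2 * Complex.sin (Rh M * (-b + η * Complex.I))‖ ∧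
    ‖2 * Complex.sin (Rh M * (-b + η * Complex.I))‖ ≤ Real.exp (Rh M * η) * 2 := by
  have hR := Rh_pos M
  set z : ℂ := Rh M * (-b + η * Complex.I) with hz
  have h1 : 2 * Complex.sin z =
      (Complex.exp (-z * Complex.I) - Complex.exp (z * Complex.I)) * Complex.I := by
    rw [Complex.sin]
    ring
  have him : z.im = Rh M * η := by
    rw [hz]
    simp
  have n1 : ‖Complex.exp (-z * Complex.I)‖ = Real.exp (Rh M * η) := by
    rw [Complex.norm_exp]
    congr 1
    simp [him]
  have n2 : ‖Complex.exp (z * Complex.I)‖ = Real.exp (-(Rh M * η)) := by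
    rw [Complex.norm_exp]
    congr 1
    simp [him]
  rw [h1, norm_mul, Complex.norm_I, mul_one]
  have e1 : Real.exp (Rh M * η) * (1 - Real.exp (-(2 * Rh M * η))) =
      Real.exp (Rh M * η) - Real.exp (-(Rh M * η)) := by
    rw [mul_sub, mul_one, ← Real.exp_add]
    congr 2
    ring
  have hle : Real.exp (-(Rh M * η)) ≤ Real.exp (Rh M * η) := by
    apply Real.exp_le_exp.2
    have : 0 < Rh M * η := by positivity
    linarith
  constructor
  · rw [e1]
    have := norm_sub_norm_le (Complex.exp (-z * Complex.I)) (Complex.exp (z * Complex.I))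
    rwa [n1, n2] at this
  · have := norm_sub_le (Complex.exp (-z * Complex.I)) (Complex.exp (z * Complex.I))
    rw [n1, n2] at this
    linarith

theorem ppbf : S_PPBF := by
  intro p h H hh
  obtain ⟨C0, hC0⟩ := Pool.Agent.W688.TV.hrs h H hh
  set C1 := |Real.log (2 * Real.sinh (h / 2))| + |Real.log (2 * Real.cosh (H / 2))| with hC1
  set C2 := Real.log 2 + |Real.log (1 - Real.exp (-h))| with hC2
  have hl2 : 0 ≤ Real.log 2 := Real.log_nonneg (by norm_num)
  refine ⟨|C0| + C1 + C2, by positivity, ?_⟩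
  intro M d hd b η h1 h2
  have hη : 0 < η := lt_of_lt_of_le hh h1
  have hη2 : 0 < η / 2 := by linarith
  have hR := Rh_pos M
  -- the point
  obtain ⟨ψ, hψ⟩ : ∃ ψ : ℂ, ψ = -b + η * Complex.I := ⟨_, rfl⟩
  have e1 : ψ + π = -((b - π : ℝ) : ℂ) + η * Complex.I := by
    rw [hψ]; push_cast; ring
  have e2 : ψ / 2 = -((b / 2 : ℝ) : ℂ) + ((η / 2 : ℝ) : ℂ) * Complex.I := by
    rw [hψ]; push_cast; ring
  have hRRne : RH M d (ψ + π) * (2 * Complex.cos ((ψ + π) / 2)) ≠ 0 := by
    rw [e1]
    apply mul_ne_zero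
    · apply Pool.Agent.W707.TV.RH_ne
      simp
      exact hη.ne'
    · exact mul_ne_zero two_ne_zero (Pool.Agent.W707.TV.cosHalf_ne hη)
  have hsin := Pool.Agent.W709.VC.norm_two_sin (b / 2) (η / 2) hη2
  have hsne := Pool.Agent.W709.VC.sinNe (b := b / 2) hη2
  rw [← e2] at hsin hsne
  have hcos := norm_sinP M b η hη
  rw [← hψ] at hcos
  have hcne : 2 * Complex.sin (Rh M * ψ) ≠ 0 := by
    refine mul_ne_zero two_ne_zero (sin_ne_im ?_)
    rw [hψ]
    simp
    exact hη.ne'
  have hlog : Real.log ‖HT p M d ψ‖ =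
      p * Rh M * b * η / (4 * π) + Real.log ‖RH M d (ψ + π) * (2 * Complex.cos ((ψ + π) / 2))‖ +
        Real.log ‖2 * Complex.sin (ψ / 2)‖ - Real.log ‖2 * Complex.sin (Rh M * ψ)‖ := by
    have e : HT p M d ψ =
        Complex.exp (Complex.I * p * Rh M * ψ ^ 2 / (8 * π)) *
        (RH M d (ψ + π) * (2 * Complex.cos ((ψ + π) / 2))) *
        (2 * Complex.sin (ψ / 2)) / (2 * Complex.sin (Rh M * ψ)) := by
      unfold HT
      have : Complex.sin (Rh M * ψ) ≠ 0 := by
        intro h
        apply hcne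
        rw [h]
        simp
      field_simp
    have he := norm_expoP p M b η
    rw [← hψ] at he
    rw [e, norm_div, norm_mul, norm_mul, he]
    rw [Real.log_div (mul_ne_zero (mul_ne_zero (Real.exp_ne_zero _) (norm_ne_zero_iff.2 hRRne))
      (norm_ne_zero_iff.2 hsne)) (norm_ne_zero_iff.2 hcne),
      Real.log_mul (mul_ne_zero (Real.exp_ne_zero _) (norm_ne_zero_iff.2 hRRne))
        (norm_ne_zero_iff.2 hsne),
      Real.log_mul (Real.exp_ne_zero _) (norm_ne_zero_iff.2 hRRne), Real.log_exp]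
  have hRR := hC0 M d hd (b - π) η h1 h2
  rw [← e1] at hRR
  -- the arguments of `Lf`
  have a1 : b - π + 2 * π * d / Rh M = b + (2 * π * d / Rh M - π) := by ring
  have a2 : Lf η (b - π - 2 * π * d / Rh M) = Lf η (b - (2 * π * d / Rh M - π)) - 2 * π * η := by
    have := Lf_add_two_pi hη (b - π - 2 * π * d / Rh M)
    rw [show b - π - 2 * π * d / Rh M + 2 * π = b - (2 * π * d / Rh M - π) by ring] at this
    linarith
  rw [a1, a2] at hRR
  -- sine
  have hsh : 0 < 2 * Real.sinh (h / 2) := by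
    have := Real.sinh_pos_iff.2 (by linarith : 0 < h / 2)
    linarith
  have hs1 : Real.log (2 * Real.sinh (h / 2)) ≤ Real.log ‖2 * Complex.sin (ψ / 2)‖ := by
    apply Real.log_le_log hsh
    have : Real.sinh (h / 2) ≤ Real.sinh (η / 2) := Real.sinh_le_sinh.2 (by linarith)
    linarith [hsin.1]
  have hs2 : Real.log ‖2 * Complex.sin (ψ / 2)‖ ≤ Real.log (2 * Real.cosh (H / 2)) := by
    apply Real.log_le_log (norm_pos_iff.2 hsne)
    have : Real.cosh (η / 2) ≤ Real.cosh (H / 2) := by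
      apply Real.cosh_le_cosh.2
      rw [abs_of_pos hη2, abs_of_pos (by linarith)]
      linarith
    linarith [hsin.2]
  have hs3 : |Real.log ‖2 * Complex.sin (ψ / 2)‖| ≤ C1 := by
    rw [abs_le]
    constructor
    · have := neg_abs_le (Real.log (2 * Real.sinh (h / 2)))
      have := abs_nonneg (Real.log (2 * Real.cosh (H / 2)))
      linarith
    · have := le_abs_self (Real.log (2 * Real.cosh (H / 2)))
      have := abs_nonneg (Real.log (2 * Real.sinh (h / 2)))
      linarith
  -- denominator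
  have hNη : h ≤ 2 * Rh M * η := by
    have : 1 ≤ 2 * Rh M := by
      unfold Rh
      have : (0 : ℝ) ≤ M := by positivity
      linarith
    nlinarith
  have he1 : Real.exp (-h) < 1 := by
    rw [Real.exp_lt_one_iff]; linarith
  have he2 : Real.exp (-(2 * Rh M * η)) ≤ Real.exp (-h) := Real.exp_le_exp.2 (by linarith)
  have hc1 : Rh M * η + Real.log (1 - Real.exp (-h)) ≤
      Real.log ‖2 * Complex.sin (Rh M * ψ)‖ := by
    have h3 : Rh M * η + Real.log (1 - Real.exp (-h)) =
        Real.log (Real.exp (Rh M * η) * (1 - Real.exp (-h))) := by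
      rw [Real.log_mul (Real.exp_ne_zero _) (by linarith), Real.log_exp]
    rw [h3]
    apply Real.log_le_log
    · exact mul_pos (Real.exp_pos _) (by linarith)
    · refine le_trans ?_ hcos.1
      apply mul_le_mul_of_nonneg_left _ (Real.exp_pos _).le
      linarith
  have hc2 : Real.log ‖2 * Complex.sin (Rh M * ψ)‖ ≤ Rh M * η + Real.log 2 := by
    have h3 : Rh M * η + Real.log 2 = Real.log (Real.exp (Rh M * η) * 2) := by
      rw [Real.log_mul (Real.exp_ne_zero _) (by norm_num), Real.log_exp]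
    rw [h3]
    exact Real.log_le_log (norm_pos_iff.2 hcne) hcos.2
  have hc3 : |Real.log ‖2 * Complex.sin (Rh M * ψ)‖ - Rh M * η| ≤ C2 := by
    rw [abs_le]
    constructor
    · have := neg_abs_le (Real.log (1 - Real.exp (-h)))
      linarith
    · have := abs_nonneg (Real.log (1 - Real.exp (-h)))
      linarith
  rw [← hψ, hlog]
  have hpi : (π : ℝ) ≠ 0 := Real.pi_ne_zero
  unfold hp
  generalize Real.log ‖RH M d (ψ + π) * (2 * Complex.cos ((ψ + π) / 2))‖ = X1 at *
  generalize Real.log ‖2 * Complex.sin (ψ / 2)‖ = X2 at *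
  generalize Real.log ‖2 * Complex.sin (Rh M * ψ)‖ = X3 at *
  generalize Lf η (b + (2 * π * d / Rh M - π)) = X4 at *
  generalize Lf η (b - (2 * π * d / Rh M - π)) = X5 at *
  generalize GapVol.lob ((2 * π * d / Rh M - π) / 2) = X6 at *
  have hid : p * Rh M * b * η / (4 * π) + X1 + X2 - X3 -
      Rh M / (4 * π) * (8 * X6 + 2 * ((p : ℝ) / 2 * b - π) * η + (X4 - X5) - 8 * X6) =
      (X1 - Rh M / (4 * π) * (X4 - (X5 - 2 * π * η))) + X2 + -(X3 - Rh M * η) := by
    field_simp
    ring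
  rw [hid]
  refine (abs_add_three _ _ _).trans ?_
  rw [abs_neg]
  have := le_abs_self C0
  linarith

end Pool.Agent.H11.CYC
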